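import Pool.Agent.H33.GC.Stm

/-!
GC (MP_90715c_gt), row 4: the planar loop lemma, by continuous logarithms.
-/

open Set Filter Topology Complex

namespace Pool.Agent.H61.GC

open Pool.Agent.H33.GC

/-- `f` has a continuous logarithm on `A`. -/
def HasLog (A : Set ℂ) (f : ℂ → ℂ) : Prop :=
  ∃ L : ℂ → ℂ, ContinuousOn L A ∧ ∀ z ∈ A, exp (L z) = f z

theorem HasLog.mul {A : Set ℂ} {f g h : ℂ → ℂ} (hf : HasLog A f) (hg : HasLog A g)
    (hh : ∀ z ∈ A, h z = f z * g z) : HasLog A h := by
  obtain ⟨L, h1, h2⟩ := hf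
  obtain ⟨M, h3, h4⟩ := hg
  refine ⟨fun z => L z + M z, h1.add h3, fun z hz => ?_⟩
  rw [exp_add, h2 z hz, h4 z hz, hh z hz]

theorem hasLog_slit {A : Set ℂ} {f : ℂ → ℂ} (hc : ContinuousOn f A)
    (hs : ∀ z ∈ A, f z ∈ slitPlane) : HasLog A f := by
  refine ⟨fun z => log (f z), hc.clog hs, fun z hz => ?_⟩
  exact exp_log (slitPlane_ne_zero (hs z hz))

/-- quotient of two close linear functions -/
theorem hasLog_quot {A : Set ℂ} (c c0 : ℂ) (h : ∀ z ∈ A, ‖c - c0‖ < ‖z - c‖) :
    HasLog A (fun z => (z - c0) / (z - c)) := by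
  have hne : ∀ z ∈ A, z - c ≠ 0 := by
    intro z hz h0
    have := h z hz
    rw [h0, norm_zero] at this
    exact absurd this (not_lt.2 (norm_nonneg _))
  apply hasLog_slit
  · exact ContinuousOn.div (by fun_prop) (by fun_prop) hne
  · intro z hz
    have e : (z - c0) / (z - c) = 1 + (c - c0) / (z - c) := by
      field_simp [hne z hz]
      ring
    rw [e]
    apply mem_slitPlane_of_norm_lt_one
    rw [norm_div, div_lt_one (norm_pos_iff.2 (hne z hz))]
    exact h z hz

/-- clopen argument -/
theorem hasLog_move {A K : Set ℂ} (hA : IsCompact A) (hK : IsPreconnected K)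
    (hd : ∀ c ∈ K, c ∉ A) {n n' : ℂ} (hn : n ∈ K) (hn' : n' ∈ K) :
    HasLog A (fun z => (z - n) / (z - n')) := by
  classical
  set f : ℂ → ℕ := fun c => if HasLog A (fun z => (z - n) / (z - c)) then 1 else 0 with hf
  have key : ∀ c0 ∈ K, ∃ δ > (0 : ℝ), ∀ c ∈ K, ‖c - c0‖ < δ → f c = f c0 := by
    intro c0 hc0
    have h1 : Aᶜ ∈ 𝓝 c0 := hA.isClosed.isOpen_compl.mem_nhds (hd c0 hc0)
    obtain ⟨δ, hδ, hball⟩ := Metric.mem_nhds_iff.1 h1
    have h2 : ∀ z ∈ A, δ ≤ ‖z - c0‖ := by
      intro z hz
      by_contra hlt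
      push Not at hlt
      have : z ∈ Metric.ball c0 δ := by
        rw [Metric.mem_ball, dist_eq_norm]
        exact hlt
      exact hball this hz
    refine ⟨δ / 2, by positivity, fun c hc hcc => ?_⟩
    have h3 : ∀ z ∈ A, δ / 2 < ‖z - c‖ := by
      intro z hz
      have h4 : ‖z - c0‖ ≤ ‖z - c‖ + ‖c - c0‖ := by
        calc ‖z - c0‖ = ‖(z - c) + (c - c0)‖ := by ring_nf
          _ ≤ _ := norm_add_le _ _
      have := h2 z hz
      linarith
    have q1 : HasLog A (fun z => (z - c0) / (z - c)) :=
      hasLog_quot c c0 fun z hz => hcc.trans (h3 z hz)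
    have q2 : HasLog A (fun z => (z - c) / (z - c0)) :=
      hasLog_quot c0 c fun z hz => by
        rw [norm_sub_rev]
        have := h2 z hz
        linarith
    have ne1 : ∀ z ∈ A, z - c ≠ 0 := by
      intro z hz h0
      have := h3 z hz
      rw [h0, norm_zero] at this
      linarith
    have ne2 : ∀ z ∈ A, z - c0 ≠ 0 := by
      intro z hz h0
      have := h2 z hz
      rw [h0, norm_zero] at this
      linarith
    have hiff : HasLog A (fun z => (z - n) / (z - c)) ↔ HasLog A (fun z => (z - n) / (z - c0)) := by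
      constructor
      · intro h
        refine h.mul q2 fun z hz => ?_
        have a1 := ne1 z hz
        have a2 := ne2 z hz
        field_simp
      · intro h
        refine h.mul q1 fun z hz => ?_
        have a1 := ne1 z hz
        have a2 := ne2 z hz
        field_simp
    simp only [hf, hiff]
  have hcont : ContinuousOn f K := by
    intro c0 hc0
    obtain ⟨δ, hδ, h⟩ := key c0 hc0
    have h1 : ∀ᶠ c in 𝓝[K] c0, f c = f c0 := by
      have h2 : Metric.ball c0 δ ∈ 𝓝 c0 := Metric.ball_mem_nhds c0 hδ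
      filter_upwards [mem_nhdsWithin_of_mem_nhds h2, self_mem_nhdsWithin] with c hc1 hc2
      apply h c hc2
      rw [Metric.mem_ball, dist_eq_norm] at hc1
      exact hc1
    exact (continuousWithinAt_const (b := f c0)).congr_of_eventuallyEq h1 rfl
  have heq : f n = f n' := hK.constant hcont hn hn'
  have hn1 : HasLog A (fun z => (z - n) / (z - n)) := by
    refine ⟨fun _ => 0, continuousOn_const, fun z hz => ?_⟩
    have : z - n ≠ 0 := by
      intro h0
      rw [sub_eq_zero] at h0
      rw [h0] at hz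
      exact hd n hn hz
    rw [exp_zero]
    exact (div_self this).symm
  by_contra hcon
  have e1 : f n = 1 := by simp only [hf, if_pos hn1]
  have e2 : f n' = 0 := by simp only [hf, if_neg hcon]
  omega

/-- uniqueness of continuous logarithms of a constant on a preconnected set -/
theorem log_const {B : Set ℂ} (hB : IsPreconnected B) {D : ℂ → ℂ} (hD : ContinuousOn D B)
    {w : ℂ} (hw : ∀ z ∈ B, exp (D z) = w) {x y : ℂ} (hx : x ∈ B) (hy : y ∈ B) : D x = D y := by
  have h1 : ∀ z ∈ B, ∃ k : ℤ, D z = D x + k * (2 * (Real.pi : ℂ) * I) := by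
    intro z hz
    have := (exp_eq_exp_iff_exists_int (x := D z) (y := D x)).1 (by rw [hw z hz, hw x hx])
    exact this
  have hpi := Real.pi_pos
  set f : ℂ → ℝ := fun z => (D z - D x).im / (2 * Real.pi) with hf
  have hfc : ContinuousOn f B := by
    apply ContinuousOn.div_const
    exact Complex.continuous_im.comp_continuousOn (hD.sub continuousOn_const)
  have hfi : ∀ z ∈ B, ∃ k : ℤ, f z = k ∧ D z = D x + k * (2 * (Real.pi : ℂ) * I) := by
    intro z hz
    obtain ⟨k, hk⟩ := h1 z hz
    refine ⟨k, ?_, hk⟩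
    simp only [hf]
    rw [hk]
    have e : (D x + k * (2 * (Real.pi : ℂ) * I) - D x).im = k * (2 * Real.pi) := by
      have e1 : D x + k * (2 * (Real.pi : ℂ) * I) - D x =
          ((k * (2 * Real.pi) : ℝ) : ℂ) * I := by
        push_cast; ring
      rw [e1, mul_comm, Complex.I_mul_im, Complex.ofReal_re]
    rw [e]
    field_simp
  have hfx : f x = 0 := by simp [hf]
  obtain ⟨k, hk1, hk2⟩ := hfi y hy
  have hk0 : k = 0 := by
    rcases lt_trichotomy k 0 with h | h | h
    · exfalso
      have h2 : (-(1 / 2) : ℝ) ∈ Icc (f y) (f x) := by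
        rw [hk1, hfx]
        constructor
        · have : (k : ℝ) ≤ -1 := by exact_mod_cast (by omega : k ≤ -1)
          linarith
        · norm_num
      obtain ⟨z, hz, hz2⟩ := hB.intermediate_value hy hx hfc h2
      obtain ⟨j, hj1, _⟩ := hfi z hz
      rw [hz2] at hj1
      have : (2 * j : ℝ) = -1 := by linarith
      have h3 : (2 * j : ℤ) = -1 := by exact_mod_cast this
      omega
    · exact h
    · exfalso
      have h2 : ((1 / 2) : ℝ) ∈ Icc (f x) (f y) := by
        rw [hk1, hfx]
        constructor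
        · norm_num
        · have : (1 : ℝ) ≤ k := by exact_mod_cast (by omega : 1 ≤ k)
          linarith
      obtain ⟨z, hz, hz2⟩ := hB.intermediate_value hx hy hfc h2
      obtain ⟨j, hj1, _⟩ := hfi z hz
      rw [hz2] at hj1
      have : (2 * j : ℝ) = 1 := by linarith
      have h3 : (2 * j : ℤ) = 1 := by exact_mod_cast this
      omega
  rw [hk2, hk0]
  simp

theorem ze_pow_eight : ze ^ 8 = 1 := by
  unfold ze
  rw [← exp_nat_mul]
  have e : ((8 : ℕ) : ℂ) * (((Real.pi / 4 : ℝ) : ℂ) * I) = 2 * Real.pi * I := by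
    push_cast; ring
  rw [e, exp_two_pi_mul_I]

theorem norm_ze : ‖ze‖ = 1 := by
  unfold ze
  exact norm_exp_ofReal_mul_I _

theorem norm_ze_pow (i : ℕ) : ‖ze ^ i‖ = 1 := by
  rw [norm_pow, norm_ze, one_pow]

theorem ze_re : 1 / 2 < ze.re := by
  unfold ze
  rw [exp_ofReal_mul_I_re, Real.cos_pi_div_four]
  have : (1 : ℝ) < Real.sqrt 2 := by
    rw [Real.lt_sqrt (by norm_num)]
    norm_num
  linarith

/-- `log (ζ w) = i π / 4 + log w` on the right half plane -/
theorem log_ze_mul {w : ℂ} (hw : 0 < w.re) :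
    log (ze * w) = ((Real.pi / 4 : ℝ) : ℂ) * I + log w := by
  have hw0 : w ≠ 0 := by
    intro h
    rw [h] at hw
    simp at hw
  have e : ze * w = exp (((Real.pi / 4 : ℝ) : ℂ) * I + log w) := by
    rw [exp_add, exp_log hw0]
    rfl
  have harg := (abs_arg_lt_pi_div_two_iff (z := w)).2 (Or.inl hw)
  rw [abs_lt] at harg
  have hpi := Real.pi_pos
  have him : (((Real.pi / 4 : ℝ) : ℂ) * I + log w).im = Real.pi / 4 + arg w := by
    rw [add_im, log_im]
    simp
  rw [e, log_exp]
  · rw [him]; linarith
  · rw [him]; linarith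

theorem re_quot (i : ℕ) (z n : ℂ) (u : ℂ) (b : ℝ) (hz : ‖z - ze ^ i * u‖ ≤ b)
    (hn : ‖n‖ ≤ 1 / 10) : u.re - b - 1 / 10 ≤ ((z - n) / ze ^ i).re := by
  have h0 : ze ^ i ≠ 0 := by
    intro h
    have := norm_ze_pow i
    rw [h, norm_zero] at this
    norm_num at this
  have e : (z - n) / ze ^ i = u + (z - ze ^ i * u) / ze ^ i - n / ze ^ i := by
    field_simp
    ring
  have h1 : ‖(z - ze ^ i * u) / ze ^ i‖ ≤ b := by
    rw [norm_div, norm_ze_pow, div_one]; exact hz
  have h2 : ‖n / ze ^ i‖ ≤ 1 / 10 := by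
    rw [norm_div, norm_ze_pow, div_one]; exact hn
  have h3 := (abs_le.1 ((abs_re_le_norm _).trans h1)).1
  have h4 := (abs_le.1 ((abs_re_le_norm _).trans h2)).2
  rw [e, sub_re, add_re]
  linarith

/-- (ROW 4). -/
theorem row4 : LoopStmt := by
  intro K n n' ε S hKc hK hn hn' hn1 hn2 hε hε2 hS hKz
  -- the set `A`
  set A : Set ℂ := ⋃ i ∈ Finset.range 8, (S i ∪ Metric.closedBall (ze ^ i) ε) with hA
  have hAc : IsCompact A := by
    apply (Finset.range 8).isCompact_biUnion
    intro i hi
    exact (hS i (Finset.mem_range.1 hi)).1.union (isCompact_closedBall _ _)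
  have hSA : ∀ i < 8, S i ⊆ A := by
    intro i hi z hz
    rw [hA, mem_iUnion₂]
    exact ⟨i, Finset.mem_range.2 hi, Or.inl hz⟩
  have hBA : ∀ i < 8, Metric.closedBall (ze ^ i) ε ⊆ A := by
    intro i hi z hz
    rw [hA, mem_iUnion₂]
    exact ⟨i, Finset.mem_range.2 hi, Or.inr hz⟩
  have hBA' : ∀ i ≤ 8, Metric.closedBall (ze ^ i) ε ⊆ A := by
    intro i hi
    rcases Nat.lt_or_ge i 8 with h | h
    · exact hBA i h
    · have h8 : i = 8 := le_antisymm hi h
      rw [h8, ze_pow_eight]
      have := hBA 0 (by norm_num)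
      rwa [pow_zero] at this
  have hd : ∀ c ∈ K, c ∉ A := by
    intro c hc hcA
    rw [hA, mem_iUnion₂] at hcA
    obtain ⟨i, hi, h⟩ := hcA
    have hi' := Finset.mem_range.1 hi
    rcases h with h | h
    · exact (Set.disjoint_left.1 (hS i hi').2.2.2.2.2 h) hc
    · have := hKz i hi' c hc
      rw [Metric.mem_closedBall, dist_eq_norm] at h
      linarith
  have hAb : ∀ z ∈ A, ‖z‖ ≤ 2 := by
    intro z hz
    rw [hA, mem_iUnion₂] at hz
    obtain ⟨i, hi, h⟩ := hz
    have hi' := Finset.mem_range.1 hi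
    have h1 : ‖z - ze ^ i‖ ≤ 4 / 5 := by
      rcases h with h | h
      · exact (hS i hi').2.2.1 z h
      · rw [Metric.mem_closedBall, dist_eq_norm] at h
        linarith
    calc ‖z‖ = ‖(z - ze ^ i) + ze ^ i‖ := by ring_nf
      _ ≤ ‖z - ze ^ i‖ + ‖ze ^ i‖ := norm_add_le _ _
      _ ≤ 2 := by rw [norm_ze_pow]; linarith
  -- a logarithm of `z - n`
  have hlog : HasLog A (fun z => z - n) := by
    have h1 := hasLog_move hAc hK hd hn hn'
    have hn'0 : n' ≠ 0 := by
      intro h
      rw [h, norm_zero] at hn2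
      norm_num at hn2
    have h2 : HasLog A (fun z => z - n') := by
      refine ⟨fun z => log (-n') + log (1 + -(z / n')), ?_, fun z hz => ?_⟩
      · apply ContinuousOn.add continuousOn_const
        apply ContinuousOn.clog
        · fun_prop
        · intro z hz
          apply mem_slitPlane_of_norm_lt_one
          rw [norm_neg, norm_div, div_lt_one (by linarith)]
          have := hAb z hz
          linarith
      · have h3 : (1 + -(z / n') : ℂ) ≠ 0 := by
          apply slitPlane_ne_zero
          apply mem_slitPlane_of_norm_lt_one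
          rw [norm_neg, norm_div, div_lt_one (by linarith)]
          have := hAb z hz
          linarith
        rw [exp_add, exp_log (neg_ne_zero.2 hn'0), exp_log h3]
        field_simp
        ring
    refine h1.mul h2 fun z hz => ?_
    have h3 : z - n' ≠ 0 := by
      intro h0
      have h4 : z = n' := sub_eq_zero.1 h0
      have := hAb z hz
      rw [h4] at this
      linarith
    field_simp
  obtain ⟨L, hL1, hL2⟩ := hlog
  -- the pieces
  have step : ∀ i < 8, L (ze ^ i) - log ((ze ^ i - n) / ze ^ i) =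
      L (ze ^ (i + 1)) - log ((ze ^ (i + 1) - n) / ze ^ i) := by
    intro i hi
    obtain ⟨s1, s2, s3, ⟨p, p1, p2⟩, ⟨q, q1, q2⟩, s6⟩ := hS i hi
    set B : Set ℂ := (Metric.closedBall (ze ^ i) ε ∪ S i) ∪ Metric.closedBall (ze ^ (i + 1)) ε
      with hB
    have hBp : IsPreconnected B := by
      apply IsPreconnected.union q (Or.inr q1)
      · rw [Metric.mem_closedBall, dist_eq_norm]; exact q2
      · apply IsPreconnected.union p
        · rw [Metric.mem_closedBall, dist_eq_norm]; exact p2
        · exact p1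
        · exact (convex_closedBall _ _).isPreconnected
        · exact s2
      · exact (convex_closedBall _ _).isPreconnected
    have hBsub : B ⊆ A := by
      rintro z ((hz | hz) | hz)
      · exact hBA i hi hz
      · exact hSA i hi hz
      · exact hBA' (i + 1) (by omega) hz
    have hre : ∀ z ∈ B, 0 < ((z - n) / ze ^ i).re := by
      rintro z ((hz | hz) | hz)
      · rw [Metric.mem_closedBall, dist_eq_norm] at hz
        have := re_quot i z n 1 (4 / 5) (by rw [mul_one]; linarith) hn1
        rw [one_re] at this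
        linarith
      · have := re_quot i z n 1 (4 / 5) (by rw [mul_one]; exact s3 z hz) hn1
        rw [one_re] at this
        linarith
      · rw [Metric.mem_closedBall, dist_eq_norm, pow_succ] at hz
        have := re_quot i z n ze (1 / 20) (hz.trans hε2) hn1
        have h2 := ze_re
        linarith
    have h0 : ze ^ i ≠ 0 := by
      intro h
      have := norm_ze_pow i
      rw [h, norm_zero] at this
      norm_num at this
    refine log_const hBp (D := fun z => L z - log ((z - n) / ze ^ i)) (w := ze ^ i) ?_ ?_ ?_ ?_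
    · apply ContinuousOn.sub (hL1.mono hBsub)
      apply ContinuousOn.clog
      · fun_prop
      · intro z hz
        exact Or.inl (hre z hz)
    · intro z hz
      have h1 : (z - n) / ze ^ i ≠ 0 := by
        intro h
        have := hre z hz
        rw [h] at this
        simp at this
      have h2 : z - n ≠ 0 := by
        intro h
        rw [h, zero_div] at h1
        exact h1 rfl
      rw [exp_sub, exp_log h1, hL2 z (hBsub hz)]
      field_simp
    · exact Or.inl (Or.inl (Metric.mem_closedBall_self hε.le))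
    · exact Or.inr (Metric.mem_closedBall_self hε.le)
  have step2 : ∀ i < 8, L (ze ^ (i + 1)) - log ((ze ^ (i + 1) - n) / ze ^ (i + 1)) =
      L (ze ^ i) - log ((ze ^ i - n) / ze ^ i) + ((Real.pi / 4 : ℝ) : ℂ) * I := by
    intro i hi
    have h0 : ze ≠ 0 := by
      intro h
      have := norm_ze
      rw [h, norm_zero] at this
      norm_num at this
    have h1 : (ze ^ (i + 1) - n) / ze ^ i = ze * ((ze ^ (i + 1) - n) / ze ^ (i + 1)) := by
      field_simp
      ring
    have h2 : 0 < ((ze ^ (i + 1) - n) / ze ^ (i + 1)).re := by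
      have := re_quot (i + 1) (ze ^ (i + 1)) n 1 (1 / 10) (by
        rw [mul_one, sub_self, norm_zero]; norm_num) hn1
      rw [one_re] at this
      linarith
    rw [step i hi, h1, log_ze_mul h2]
    ring
  have all : ∀ i : ℕ, i ≤ 8 → L (ze ^ i) - log ((ze ^ i - n) / ze ^ i) =
      L (ze ^ 0) - log ((ze ^ 0 - n) / ze ^ 0) + i * (((Real.pi / 4 : ℝ) : ℂ) * I) := by
    intro i
    induction i with
    | zero => intro _; simp
    | succ i ih =>
      intro hi
      rw [step2 i (by omega), ih (by omega)]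
      push_cast
      ring
  have h8 := all 8 (le_refl _)
  rw [ze_pow_eight, pow_zero] at h8
  have h9 : ((8 : ℕ) : ℂ) * (((Real.pi / 4 : ℝ) : ℂ) * I) = 0 := by
    linear_combination -h8
  have h10 := congrArg Complex.im h9
  have e : ((8 : ℕ) : ℂ) * (((Real.pi / 4 : ℝ) : ℂ) * I) = ((2 * Real.pi : ℝ) : ℂ) * I := by
    push_cast; ring
  rw [e] at h10
  simp at h10

end Pool.Agent.H61.GC
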