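import Pool.Agent.H61.GC.Row4

/-!
MP_90715c_gt: the planar loop lemma for a closed chain of eight continua with common points.
-/

open Set Filter Topology Complex

namespace Pool.Agent.H61.GC

open Pool.Agent.H33.GC

/-- A closed chain of eight continua around the unit circle, with common points `y i`,
separates points close to `0` from points close to infinity. -/
def LoopStmt2 : Prop :=
  ∀ (K : Set ℂ) (n n' : ℂ) (y : ℕ → ℂ) (S : ℕ → Set ℂ), IsPreconnected K → n ∈ K → n' ∈ K →
    ‖n‖ ≤ 1 / 10 → 10 ≤ ‖n'‖ → y 8 = y 0 → (∀ i ≤ 8, ‖y i - ze ^ i‖ ≤ 1 / 20) →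
    (∀ i < 8, IsCompact (S i) ∧ IsPreconnected (S i) ∧ (∀ z ∈ S i, ‖z - ze ^ i‖ ≤ 4 / 5) ∧
      y i ∈ S i ∧ y (i + 1) ∈ S i ∧ Disjoint (S i) K) → False

theorem row4b : LoopStmt2 := by
  intro K n n' y S hK hn hn' hn1 hn2 hy8 hy hS
  -- the set `A`
  set A : Set ℂ := ⋃ i ∈ Finset.range 8, S i with hA
  have hAc : IsCompact A := by
    apply (Finset.range 8).isCompact_biUnion
    intro i hi
    exact (hS i (Finset.mem_range.1 hi)).1
  have hSA : ∀ i < 8, S i ⊆ A := by
    intro i hi z hz
    rw [hA, mem_iUnion₂]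
    exact ⟨i, Finset.mem_range.2 hi, hz⟩
  have hd : ∀ c ∈ K, c ∉ A := by
    intro c hc hcA
    rw [hA, mem_iUnion₂] at hcA
    obtain ⟨i, hi, h⟩ := hcA
    have hi' := Finset.mem_range.1 hi
    exact (Set.disjoint_left.1 (hS i hi').2.2.2.2.2 h) hc
  have hAb : ∀ z ∈ A, ‖z‖ ≤ 2 := by
    intro z hz
    rw [hA, mem_iUnion₂] at hz
    obtain ⟨i, hi, h⟩ := hz
    have hi' := Finset.mem_range.1 hi
    have h1 : ‖z - ze ^ i‖ ≤ 4 / 5 := (hS i hi').2.2.1 z h
    calc ‖z‖ = ‖(z - ze ^ i) + ze ^ i‖ := by ring_nf
      _ ≤ ‖z - ze ^ i‖ + ‖ze ^ i‖ := norm_add_le _ _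
      _ ≤ 2 := by rw [norm_ze_pow]; linarith
  -- a logarithm of `z - n`
  have hlog : HasLog A (fun z => z - n) := by
    have h1 := hasLog_move hAc hK hd hn hn'
    have hn'0 : n' ≠ 0 := by
      intro h
      rw [h, norm_zero] at hn2
      norm_num at hn2
    have h2 : HasLog A (fun z => z - n') := by
      refine ⟨fun z => log (-n') + log (1 + -(z / n')), ?_, fun z hz => ?_⟩
      · apply ContinuousOn.add continuousOn_const
        apply ContinuousOn.clog
        · fun_prop
        · intro z hz
          apply mem_slitPlane_of_norm_lt_one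
          rw [norm_neg, norm_div, div_lt_one (by linarith)]
          have := hAb z hz
          linarith
      · have h3 : (1 + -(z / n') : ℂ) ≠ 0 := by
          apply slitPlane_ne_zero
          apply mem_slitPlane_of_norm_lt_one
          rw [norm_neg, norm_div, div_lt_one (by linarith)]
          have := hAb z hz
          linarith
        rw [exp_add, exp_log (neg_ne_zero.2 hn'0), exp_log h3]
        field_simp
        ring
    refine h1.mul h2 fun z hz => ?_
    have h3 : z - n' ≠ 0 := by
      intro h0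
      have h4 : z = n' := sub_eq_zero.1 h0
      have := hAb z hz
      rw [h4] at this
      linarith
    field_simp
  obtain ⟨L, hL1, hL2⟩ := hlog
  have hzi : ∀ i : ℕ, ze ^ i ≠ 0 := by
    intro i h
    have := norm_ze_pow i
    rw [h, norm_zero] at this
    norm_num at this
  -- the pieces
  have step : ∀ i < 8, L (y i) - log ((y i - n) / ze ^ i) =
      L (y (i + 1)) - log ((y (i + 1) - n) / ze ^ i) := by
    intro i hi
    obtain ⟨s1, s2, s3, s4, s5, s6⟩ := hS i hi
    have hre : ∀ z ∈ S i, 0 < ((z - n) / ze ^ i).re := by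
      intro z hz
      have := re_quot i z n 1 (4 / 5) (by rw [mul_one]; exact s3 z hz) hn1
      rw [one_re] at this
      linarith
    refine log_const s2 (D := fun z => L z - log ((z - n) / ze ^ i)) (w := ze ^ i) ?_ ?_ s4 s5
    · apply ContinuousOn.sub (hL1.mono (hSA i hi))
      apply ContinuousOn.clog
      · fun_prop
      · intro z hz
        exact Or.inl (hre z hz)
    · intro z hz
      have h1 : (z - n) / ze ^ i ≠ 0 := by
        intro h
        have := hre z hz
        rw [h] at this
        simp at this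
      have h2 : z - n ≠ 0 := by
        intro h
        rw [h, zero_div] at h1
        exact h1 rfl
      have h0 := hzi i
      rw [exp_sub, exp_log h1, hL2 z (hSA i hi hz)]
      field_simp
  have step2 : ∀ i < 8, L (y (i + 1)) - log ((y (i + 1) - n) / ze ^ (i + 1)) =
      L (y i) - log ((y i - n) / ze ^ i) + ((Real.pi / 4 : ℝ) : ℂ) * I := by
    intro i hi
    have h0 : ze ≠ 0 := by
      have := hzi 1
      rwa [pow_one] at this
    have h1 : (y (i + 1) - n) / ze ^ i = ze * ((y (i + 1) - n) / ze ^ (i + 1)) := by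
      field_simp
      ring
    have h2 : 0 < ((y (i + 1) - n) / ze ^ (i + 1)).re := by
      have := re_quot (i + 1) (y (i + 1)) n 1 (1 / 20) (by
        rw [mul_one]; exact hy (i + 1) (by omega)) hn1
      rw [one_re] at this
      linarith
    rw [step i hi, h1, log_ze_mul h2]
    ring
  have all : ∀ i : ℕ, i ≤ 8 → L (y i) - log ((y i - n) / ze ^ i) =
      L (y 0) - log ((y 0 - n) / ze ^ 0) + i * (((Real.pi / 4 : ℝ) : ℂ) * I) := by
    intro i
    induction i with
    | zero => intro _; simp
    | succ i ih =>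
      intro hi
      rw [step2 i (by omega), ih (by omega)]
      push_cast
      ring
  have h8 := all 8 (le_refl _)
  rw [hy8, ze_pow_eight, pow_zero] at h8
  have h9 : ((8 : ℕ) : ℂ) * (((Real.pi / 4 : ℝ) : ℂ) * I) = 0 := by
    linear_combination -h8
  have h10 := mul_eq_zero.1 h9
  rcases h10 with h | h
  · norm_num at h
  · rcases mul_eq_zero.1 h with h' | h'
    · rw [ofReal_eq_zero] at h'
      have := Real.pi_pos
      linarith
    · exact I_ne_zero h'

end Pool.Agent.H61.GC
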